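import Pool.Agent.Helper69.BQ.St.M3
import Pool.Agent.Helper69.BQ.St.C2
import Pool.Agent.Helper69.BQ.St.D2
import Pool.Agent.Helper69.BQ.St.E2
import Pool.Agent.Helper25.BiqSub

/-!
# Project BQ, piece S1
-/

namespace Pool.Agent.Helper49.BQ

open Module NumberField Pool.Agent.Helper25.Biq Pool.Agent.Helper69.BQ Cert

private lemma squarefree_prod : ∀ (l : List ℕ), (∀ p ∈ l, p.Prime) → l.Nodup → Squarefree l.prod
  | [], _, _ => by simp
  | p :: l, h, hnd => by
    rw [List.prod_cons]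
    have hp : p.Prime := h p (by simp)
    have hl : ∀ q ∈ l, q.Prime := fun q hq => h q (by simp [hq])
    rw [List.nodup_cons] at hnd
    refine (Nat.squarefree_mul ?_).2 ⟨hp.squarefree, squarefree_prod l hl hnd.2⟩
    rw [Nat.Prime.coprime_iff_not_dvd hp]
    intro hd
    obtain ⟨q, hq, hpq⟩ := (Nat.Prime.prime hp).dvd_prod_iff.1 hd
    rw [(Nat.prime_dvd_prime_iff_eq hp (hl q hq)).1 hpq] at hnd
    exact hnd.1 hq

/-- S1a. -/
lemma ok1_primes {c : Cert} (h : c.ok1 = true) :
    (∀ p ∈ c.ps, p.Prime ∧ p ≠ 2 ∧ p < 2 ^ 30) ∧ c.ps.Nodup := by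
  simp only [ok1, Bool.and_eq_true, decide_eq_true_eq, List.all_eq_true] at h
  exact ⟨fun p hp => prime_of_primeB (h.1.1.1.1.1 p hp), h.1.1.1.1.2⟩

private lemma exists_of_any {X Y : List ℕ}
    (hp : ∀ p ∈ X ++ Y, p.Prime) (h : (X ++ Y).any (fun p => decide (p % 4 = 3)) = true)
    {a b : ℤ} (ha : ((X.prod : ℕ) : ℤ) ∣ a) (hb : ((Y.prod : ℕ) : ℤ) ∣ b) :
    ∃ q : ℕ, q.Prime ∧ q % 4 = 3 ∧ (q : ℤ) ∣ a * b := by
  rw [List.any_eq_true] at h
  obtain ⟨q, hq, h3⟩ := h
  rw [decide_eq_true_eq] at h3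
  refine ⟨q, hp q hq, h3, ?_⟩
  rcases List.mem_append.1 hq with hX | hY
  · exact Dvd.dvd.mul_right ((Int.natCast_dvd_natCast.2 (List.dvd_prod hX)).trans ha) _
  · exact Dvd.dvd.mul_left ((Int.natCast_dvd_natCast.2 (List.dvd_prod hY)).trans hb) _

private lemma prod_pos' {l : List ℕ} (h : ∀ p ∈ l, p.Prime) : 0 < l.prod :=
  List.prod_pos fun p hp => (h p hp).pos

/-- S1b. -/
lemma ok1_arith {c : Cert} (h : c.ok1 = true) : Arith c.g12 c.g13 c.g23 ∧ 4 ∣ c.g12 + c.g13 ∧
    2 ∣ c.g23 := by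
  obtain ⟨hps, hnd⟩ := ok1_primes h
  have hP : ∀ p ∈ c.P12 ++ (c.P13 ++ c.P23), p.Prime := fun p hp => (hps p hp).1
  have h12 : ∀ p ∈ c.P12, p.Prime := fun p hp => hP p (by simp [hp])
  have h13 : ∀ p ∈ c.P13, p.Prime := fun p hp => hP p (by simp [hp])
  have h23 : ∀ p ∈ c.P23, p.Prime := fun p hp => hP p (by simp [hp])
  have p12 : 0 < c.P12.prod := prod_pos' h12
  have p13 : 0 < c.P13.prod := prod_pos' h13
  have p23 : 0 < c.P23.prod := prod_pos' h23
  simp only [ok1, Bool.and_eq_true, decide_eq_true_eq] at h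
  obtain ⟨⟨⟨⟨⟨-, -⟩, hmod⟩, ha1⟩, ha2⟩, ha3⟩ := h
  have e23 : ((c.P23.prod : ℕ) : ℤ) ∣ c.g23 := by
    unfold Cert.g23
    exact_mod_cast Dvd.intro_left 2 rfl
  refine ⟨⟨?_, ?_, ?_, ?_, ?_, ?_, ?_⟩, ?_, ?_⟩
  · unfold Cert.g12; exact_mod_cast p12
  · unfold Cert.g13; exact_mod_cast p13
  · unfold Cert.g23; exact_mod_cast Nat.mul_pos two_pos p23
  · have e : c.g12 * c.g13 * c.g23 = (((2 :: c.ps).prod : ℕ) : ℤ) := by
      simp only [Cert.g12, Cert.g13, Cert.g23, Cert.ps, List.prod_cons, List.prod_append]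
      push_cast
      ring
    rw [e, Int.squarefree_natCast]
    apply squarefree_prod
    · intro p hp
      rcases List.mem_cons.1 hp with rfl | hp
      · exact Nat.prime_two
      · exact (hps p hp).1
    · rw [List.nodup_cons]
      exact ⟨fun h2 => (hps 2 h2).2.1 rfl, hnd⟩
  · exact exists_of_any (X := c.P12) (Y := c.P13)
      (fun p hp => hP p (by simp only [List.mem_append] at hp ⊢; tauto)) ha1 dvd_rfl dvd_rfl
  · exact exists_of_any (X := c.P12) (Y := c.P23)
      (fun p hp => hP p (by simp only [List.mem_append] at hp ⊢; tauto)) ha2 dvd_rfl e23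
  · exact exists_of_any (X := c.P13) (Y := c.P23)
      (fun p hp => hP p (by simp only [List.mem_append] at hp ⊢; tauto)) ha3 dvd_rfl e23
  · have key : 4 ∣ c.P12.prod + c.P13.prod := by
      generalize c.P12.prod = a at hmod
      generalize c.P13.prod = b at hmod
      rw [Nat.mul_mod] at hmod
      have ha : a % 4 < 4 := Nat.mod_lt _ (by norm_num)
      have hb : b % 4 < 4 := Nat.mod_lt _ (by norm_num)
      have : (a % 4 + b % 4) % 4 = 0 := by
        generalize a % 4 = x at *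
        generalize b % 4 = y at *
        interval_cases x <;> interval_cases y <;> simp_all
      omega
    unfold Cert.g12 Cert.g13
    exact_mod_cast key
  · unfold Cert.g23
    exact_mod_cast Dvd.intro _ rfl

private lemma prodM_append : ∀ (l₁ l₂ : List ℕ) (x y : ℕ), x < 2 ^ l₁.length →
    prodM (l₁ ++ l₂) (x + 2 ^ l₁.length * y) = prodM l₁ x * prodM l₂ y
  | [], l₂, x, y, hx => by
    have : x = 0 := by simpa using hx
    simp [this, prodM]
  | p :: l₁, l₂, x, y, hx => by
    rw [List.length_cons, pow_succ] at hx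
    have h1 : (x + 2 ^ (l₁.length + 1) * y) % 2 = x % 2 := by
      rw [pow_succ, show 2 ^ l₁.length * 2 * y = 2 * (2 ^ l₁.length * y) by ring]
      omega
    have h2 : (x + 2 ^ (l₁.length + 1) * y) / 2 = x / 2 + 2 ^ l₁.length * y := by
      rw [pow_succ, show 2 ^ l₁.length * 2 * y = 2 * (2 ^ l₁.length * y) by ring]
      omega
    rw [List.cons_append, List.length_cons, prodM, prodM, h1, h2,
      prodM_append l₁ l₂ (x / 2) y (by omega), mul_assoc]

private lemma prodM_zero : ∀ l : List ℕ, prodM l 0 = 1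
  | [] => rfl
  | p :: l => by rw [prodM]; simp [prodM_zero l]

private lemma prodM_full : ∀ l : List ℕ, prodM l (2 ^ l.length - 1) = l.prod
  | [] => rfl
  | p :: l => by
    have h : 0 < 2 ^ l.length := by positivity
    rw [prodM, List.length_cons, pow_succ, List.prod_cons]
    rw [show (2 ^ l.length * 2 - 1) % 2 = 1 by omega,
      show (2 ^ l.length * 2 - 1) / 2 = 2 ^ l.length - 1 by omega, prodM_full l]
    simp

private lemma prodM3 (X Y Z : List ℕ) (x y z : ℕ) (hx : x < 2 ^ X.length) (hy : y < 2 ^ Y.length) :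
    prodM (X ++ (Y ++ Z)) (x + 2 ^ X.length * (y + 2 ^ Y.length * z)) =
      prodM X x * (prodM Y y * prodM Z z) := by
  rw [prodM_append _ _ _ _ hx, prodM_append _ _ _ _ hy]

/-- S1c. The masks of the radicands. -/
lemma valM_d {c : Cert} : valM c.ps c.d1m = c.g12 * c.g13 ∧ valM c.ps c.d2m = c.g12 * c.g23 ∧
    valM c.ps c.d3m = c.g13 * c.g23 := by
  obtain ⟨A, hA⟩ : ∃ A, 2 ^ c.P12.length = A + 1 :=
    ⟨2 ^ c.P12.length - 1, by have : 0 < 2 ^ c.P12.length := by positivity
                              omega⟩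
  obtain ⟨B, hB⟩ : ∃ B, 2 ^ c.P13.length = B + 1 :=
    ⟨2 ^ c.P13.length - 1, by have : 0 < 2 ^ c.P13.length := by positivity
                              omega⟩
  obtain ⟨C, hC⟩ : ∃ C, 2 ^ c.P23.length = C + 1 :=
    ⟨2 ^ c.P23.length - 1, by have : 0 < 2 ^ c.P23.length := by positivity
                              omega⟩
  have fA : prodM c.P12 A = c.P12.prod := by
    rw [← prodM_full, hA]; rfl
  have fB : prodM c.P13 B = c.P13.prod := by
    rw [← prodM_full, hB]; rfl
  have fC : prodM c.P23 C = c.P23.prod := by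
    rw [← prodM_full, hC]; rfl
  have e12 : c.m12 = 4 * A := by
    unfold Cert.m12; rw [pow_add, hA]; omega
  have e13 : c.m13 = 4 * ((A + 1) * B) := by
    unfold Cert.m13; rw [pow_add, pow_add, hA, hB]
    have : 2 ^ 2 * (A + 1) * (B + 1) = 2 ^ 2 * (A + 1) + 4 * ((A + 1) * B) := by ring
    omega
  have e23 : c.m23 = 4 * ((A + 1) * ((B + 1) * C)) := by
    unfold Cert.m23; rw [pow_add, pow_add, pow_add, hA, hB, hC]
    have : 2 ^ 2 * (A + 1) * (B + 1) * (C + 1) =
      2 ^ 2 * (A + 1) * (B + 1) + 4 * ((A + 1) * ((B + 1) * C)) := by ring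
    omega
  have g : ∀ x y z : ℕ, x < A + 1 → y < B + 1 →
      prodM c.ps (x + (A + 1) * (y + (B + 1) * z)) =
        prodM c.P12 x * (prodM c.P13 y * prodM c.P23 z) := by
    intro x y z hx hy
    have := prodM3 c.P12 c.P13 c.P23 x y z (by rw [hA]; exact hx) (by rw [hB]; exact hy)
    rw [hA, hB] at this
    exact this
  refine ⟨?_, ?_, ?_⟩
  · have e : c.d1m = 4 * (A + (A + 1) * (B + (B + 1) * 0)) := by
      unfold Cert.d1m; rw [e12, e13]; ring
    rw [e, valM, show 4 * (A + (A + 1) * (B + (B + 1) * 0)) / 4 =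
      A + (A + 1) * (B + (B + 1) * 0) by omega, g A B 0 (by omega) (by omega), fA, fB, prodM_zero,
      if_neg (by omega), if_neg (by omega)]
    simp only [Cert.g12, Cert.g13]
    push_cast
    ring
  · have e : c.d2m = 4 * (A + (A + 1) * (0 + (B + 1) * C)) + 2 := by
      unfold Cert.d2m; rw [e12, e23]; ring
    rw [e, valM, show (4 * (A + (A + 1) * (0 + (B + 1) * C)) + 2) / 4 =
      A + (A + 1) * (0 + (B + 1) * C) by omega, g A 0 C (by omega) (by omega), fA, fC, prodM_zero,
      if_neg (by omega), if_pos (by omega)]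
    simp only [Cert.g12, Cert.g23]
    push_cast
    ring
  · have e : c.d3m = 4 * (0 + (A + 1) * (B + (B + 1) * C)) + 2 := by
      unfold Cert.d3m; rw [e13, e23]; ring
    rw [e, valM, show (4 * (0 + (A + 1) * (B + (B + 1) * C)) + 2) / 4 =
      0 + (A + 1) * (B + (B + 1) * C) by omega, g 0 B C (by omega) (by omega), fB, fC, prodM_zero,
      if_neg (by omega), if_pos (by omega)]
    simp only [Cert.g13, Cert.g23]
    push_cast
    ring

private lemma mem_mid {X Y Z : List ℕ} (hnd : (X ++ (Y ++ Z)).Nodup) {i : ℕ}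
    (hi : i < (X ++ (Y ++ Z)).length) :
    (X ++ (Y ++ Z))[i] ∈ Y ↔ X.length ≤ i ∧ i < X.length + Y.length := by
  constructor
  · intro h
    obtain ⟨j, hj, hij⟩ := List.mem_iff_getElem.1 h
    have h1 : X.length + j < (X ++ (Y ++ Z)).length := by
      simp only [List.length_append]; omega
    have h2 : (X ++ (Y ++ Z))[X.length + j] = Y[j] := by
      rw [List.getElem_append_right (by omega)]
      simp only [Nat.add_sub_cancel_left]
      rw [List.getElem_append_left hj]
    have h3 : i = X.length + j := (List.Nodup.getElem_inj_iff hnd).1 (by rw [h2, hij])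
    omega
  · rintro ⟨h1, h2⟩
    rw [List.getElem_append_right h1, List.getElem_append_left (by omega)]
    exact List.getElem_mem _

private lemma dvd_prod_iff_mem {l : List ℕ} (hl : ∀ p ∈ l, p.Prime) {p : ℕ} (hp : p.Prime) :
    p ∣ l.prod ↔ p ∈ l := by
  constructor
  · intro hd
    obtain ⟨q, hq, hpq⟩ := (Nat.Prime.prime hp).dvd_prod_iff.1 hd
    rwa [(Nat.prime_dvd_prime_iff_eq hp (hl q hq)).1 hpq]
  · exact List.dvd_prod

private lemma testBit_range (k m i : ℕ) :
    (2 ^ (2 + k + m) - 2 ^ (2 + k)).testBit (i + 2) = true ↔ k ≤ i ∧ i < k + m := by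
  have : 2 ^ (2 + k + m) - 2 ^ (2 + k) = 2 ^ (2 + k) * (2 ^ m - 1) := by
    rw [Nat.mul_sub, mul_one, ← pow_add]
  rw [this, Nat.testBit_two_pow_mul, Nat.testBit_two_pow_sub_one]
  simp only [Bool.and_eq_true, decide_eq_true_eq]
  omega

/-- S1d. Divisibility of the radicands by the `i`-th prime, in terms of masks. -/
lemma dvd_iff {c : Cert} (h : c.ok1 = true) {i : ℕ} (hi : i < c.ps.length) :
    (((gt c.ps i : ℕ) : ℤ) ∣ c.g12 ↔ c.m12.testBit (i + 2) = true) ∧
    (((gt c.ps i : ℕ) : ℤ) ∣ c.g13 ↔ c.m13.testBit (i + 2) = true) ∧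
    (((gt c.ps i : ℕ) : ℤ) ∣ c.g23 ↔ c.m23.testBit (i + 2) = true) := by
  obtain ⟨hps, hnd⟩ := ok1_primes h
  have hP : ∀ p ∈ c.P12 ++ (c.P13 ++ c.P23), p.Prime := fun p hp => (hps p hp).1
  have h12 : ∀ p ∈ c.P12, p.Prime := fun p hp => hP p (by simp [hp])
  have h13 : ∀ p ∈ c.P13, p.Prime := fun p hp => hP p (by simp [hp])
  have h23 : ∀ p ∈ c.P23, p.Prime := fun p hp => hP p (by simp [hp])
  have hgt : gt c.ps i = c.ps[i] := by
    unfold Cert.gt
    exact List.getD_eq_getElem _ _ hi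
  have hp := hps _ (List.getElem_mem hi)
  rw [hgt]
  refine ⟨?_, ?_, ?_⟩
  · unfold Cert.g12
    rw [Int.natCast_dvd_natCast, dvd_prod_iff_mem h12 hp.1]
    have h1 := mem_mid (X := []) (Y := c.P12) (Z := c.P13 ++ c.P23) hnd hi
    have h2 := testBit_range 0 c.P12.length i
    simp only [List.nil_append, List.length_nil, zero_add, add_zero, Nat.zero_le, true_and]
      at h1 h2
    unfold Cert.m12
    rw [h2]
    exact h1
  · unfold Cert.g13
    rw [Int.natCast_dvd_natCast, dvd_prod_iff_mem h13 hp.1]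
    have h1 := mem_mid (X := c.P12) (Y := c.P13) (Z := c.P23) hnd hi
    have h2 := testBit_range c.P12.length c.P13.length i
    unfold Cert.m13
    rw [h2]
    exact h1
  · unfold Cert.g23
    rw [Int.natCast_dvd_natCast, Nat.Prime.dvd_mul hp.1]
    have hn2 : ¬ c.ps[i] ∣ 2 := fun hd =>
      hp.2.1 ((Nat.prime_dvd_prime_iff_eq hp.1 Nat.prime_two).1 hd)
    rw [or_iff_right hn2, dvd_prod_iff_mem h23 hp.1]
    have e : c.ps = (c.P12 ++ c.P13) ++ (c.P23 ++ []) := by
      simp [Cert.ps]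
    have hi' : i < ((c.P12 ++ c.P13) ++ (c.P23 ++ [])).length := by rw [← e]; exact hi
    have hnd' : ((c.P12 ++ c.P13) ++ (c.P23 ++ [])).Nodup := by rw [← e]; exact hnd
    have h1 := mem_mid (X := c.P12 ++ c.P13) (Y := c.P23) (Z := []) hnd' hi'
    have h2 := testBit_range (c.P12.length + c.P13.length) c.P23.length i
    have e2 : c.ps[i] = ((c.P12 ++ c.P13) ++ (c.P23 ++ []))[i] := by
      simp only [e]
    rw [e2, h1]
    unfold Cert.m23
    rw [show 2 + c.P12.length + c.P13.length + c.P23.length =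
      2 + (c.P12.length + c.P13.length) + c.P23.length by ring,
      show 2 + c.P12.length + c.P13.length = 2 + (c.P12.length + c.P13.length) by ring, h2,
      List.length_append]

end Pool.Agent.Helper49.BQ
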